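import Mathlib
import Pool.Agent.Helper62.NT.Goals

/-!
# Project NT (MP_8ff381_an), packet QVBAS
-/

set_option autoImplicit false

noncomputable section

namespace Pool.Agent.Helper46.NT.QVBAS

open Filter Topology Pool.Agent.Helper62.NT

abbrev Ix : Type := ℕ × {p : ℕ → ℕ // Monotone p}

instance : Nonempty Ix := ⟨(0, ⟨id, monotone_id⟩)⟩

/-- the last coordinate has the weight `2` -/
def F (a : ℕ → ℝ) (l : ℝ) (n : ℕ) (p : ℕ → ℕ) : ℝ := qs a n p + 2 * (a (p n) - l) ^ 2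

theorem qs_nonneg (a : ℕ → ℝ) (n : ℕ) (p : ℕ → ℕ) : 0 ≤ qs a n p :=
  Finset.sum_nonneg fun _ _ => sq_nonneg _

theorem F_nonneg (a : ℕ → ℝ) (l : ℝ) (n : ℕ) (p : ℕ → ℕ) : 0 ≤ F a l n p := by
  unfold F
  have := qs_nonneg a n p
  positivity

theorem Qv_eq (a : ℕ → ℝ) (l : ℝ) : Qv a l = ⨆ c : Ix, Real.sqrt (F a l c.1 c.2.1) := rfl

theorem diff_le {a : ℕ → ℝ} {C : ℝ} (h : VB a C) (t : ℕ) : (a t - a 0) ^ 2 ≤ C := by
  have hm : Monotone (fun i : ℕ => if i = 0 then 0 else t) := by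
    intro i j hij
    simp only
    split_ifs <;> omega
  have h1 := h 1 _ hm
  simpa [qs] using h1

theorem bddF {a : ℕ → ℝ} (l : ℝ) (h : BV a) :
    BddAbove (Set.range fun c : Ix => Real.sqrt (F a l c.1 c.2.1)) := by
  obtain ⟨C, hC⟩ := h
  have hC0 : 0 ≤ C := le_trans (sq_nonneg _) (diff_le hC 0)
  refine ⟨Real.sqrt (C + 2 * (2 * C + 2 * (a 0 - l) ^ 2)), ?_⟩
  rintro _ ⟨c, rfl⟩
  apply Real.sqrt_le_sqrt
  unfold F
  have h1 := hC c.1 c.2.1 c.2.2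
  have h2 := diff_le hC (c.2.1 c.1)
  have h3 : (a (c.2.1 c.1) - l) ^ 2 ≤ 2 * (a (c.2.1 c.1) - a 0) ^ 2 + 2 * (a 0 - l) ^ 2 := by
    nlinarith [sq_nonneg ((a (c.2.1 c.1) - a 0) - (a 0 - l))]
  linarith

theorem bddV {a : ℕ → ℝ} (h : BV a) :
    BddAbove (Set.range fun c : Ix => Real.sqrt (qs a c.1 c.2.1)) := by
  obtain ⟨C, hC⟩ := h
  refine ⟨Real.sqrt C, ?_⟩
  rintro _ ⟨c, rfl⟩
  exact Real.sqrt_le_sqrt (hC c.1 c.2.1 c.2.2)

theorem sqrtF_le {a : ℕ → ℝ} (l : ℝ) (h : BV a) {n : ℕ} {p : ℕ → ℕ} (hp : Monotone p) :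
    Real.sqrt (F a l n p) ≤ Qv a l := by
  rw [Qv_eq]
  exact le_ciSup (bddF l h) ((n, ⟨p, hp⟩) : Ix)

theorem F_le {a : ℕ → ℝ} (l : ℝ) (h : BV a) {n : ℕ} {p : ℕ → ℕ} (hp : Monotone p) :
    F a l n p ≤ Qv a l ^ 2 := by
  have h1 := sqrtF_le l h (n := n) hp
  calc F a l n p = Real.sqrt (F a l n p) ^ 2 := (Real.sq_sqrt (F_nonneg _ _ _ _)).symm
    _ ≤ Qv a l ^ 2 := pow_le_pow_left₀ (Real.sqrt_nonneg _) h1 2

theorem qs_le {a : ℕ → ℝ} (h : BV a) {n : ℕ} {p : ℕ → ℕ} (hp : Monotone p) :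
    qs a n p ≤ V a ^ 2 := by
  have h1 : Real.sqrt (qs a n p) ≤ V a := le_ciSup (bddV h) ((n, ⟨p, hp⟩) : Ix)
  calc qs a n p = Real.sqrt (qs a n p) ^ 2 := (Real.sq_sqrt (qs_nonneg _ _ _)).symm
    _ ≤ V a ^ 2 := pow_le_pow_left₀ (Real.sqrt_nonneg _) h1 2

theorem Qv_nonneg (a : ℕ → ℝ) (l : ℝ) : 0 ≤ Qv a l := by
  rw [Qv_eq]
  exact Real.iSup_nonneg fun c => Real.sqrt_nonneg _

theorem V_nonneg (a : ℕ → ℝ) : 0 ≤ V a := Real.iSup_nonneg fun c => Real.sqrt_nonneg _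

theorem Qv_le {a : ℕ → ℝ} {l C : ℝ} (hC : 0 ≤ C)
    (h : ∀ (n : ℕ) (p : ℕ → ℕ), Monotone p → F a l n p ≤ C ^ 2) : Qv a l ≤ C := by
  rw [Qv_eq]
  refine Real.iSup_le (fun c => ?_) hC
  exact Real.sqrt_le_iff.2 ⟨hC, h c.1 c.2.1 c.2.2⟩

theorem mink (s : Finset ℕ) (X Y : ℕ → ℝ) :
    Real.sqrt (∑ i ∈ s, (X i + Y i) ^ 2) ≤
      Real.sqrt (∑ i ∈ s, X i ^ 2) + Real.sqrt (∑ i ∈ s, Y i ^ 2) := by
  have hX : 0 ≤ ∑ i ∈ s, X i ^ 2 := Finset.sum_nonneg fun _ _ => sq_nonneg _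
  have hY : 0 ≤ ∑ i ∈ s, Y i ^ 2 := Finset.sum_nonneg fun _ _ => sq_nonneg _
  refine Real.sqrt_le_iff.2 ⟨add_nonneg (Real.sqrt_nonneg _) (Real.sqrt_nonneg _), ?_⟩
  have h1 : ∑ i ∈ s, (X i + Y i) ^ 2 = ∑ i ∈ s, X i ^ 2 + 2 * ∑ i ∈ s, X i * Y i +
      ∑ i ∈ s, Y i ^ 2 := by
    rw [Finset.mul_sum, ← Finset.sum_add_distrib, ← Finset.sum_add_distrib]
    exact Finset.sum_congr rfl fun i _ => by ring
  have h2 := Real.sum_mul_le_sqrt_mul_sqrt s X Y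
  rw [h1, add_sq, Real.sq_sqrt hX, Real.sq_sqrt hY]
  linarith

/-- the coordinates -/
def co (a : ℕ → ℝ) (l : ℝ) (n : ℕ) (p : ℕ → ℕ) (i : ℕ) : ℝ :=
  if i = n then Real.sqrt 2 * (a (p n) - l) else a (p (i + 1)) - a (p i)

theorem F_co (a : ℕ → ℝ) (l : ℝ) (n : ℕ) (p : ℕ → ℕ) :
    F a l n p = ∑ i ∈ Finset.range (n + 1), co a l n p i ^ 2 := by
  rw [Finset.sum_range_succ]
  unfold F qs
  congr 1
  · refine Finset.sum_congr rfl fun i hi => ?_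
    rw [Finset.mem_range] at hi
    unfold co
    rw [if_neg (by omega)]
  · unfold co
    rw [if_pos rfl, mul_pow, Real.sq_sqrt (by norm_num)]

theorem tri (a b : ℕ → ℝ) (l m : ℝ) (n : ℕ) (p : ℕ → ℕ) :
    Real.sqrt (F (fun t => a t + b t) (l + m) n p) ≤
      Real.sqrt (F a l n p) + Real.sqrt (F b m n p) := by
  rw [F_co, F_co, F_co]
  have h := mink (Finset.range (n + 1)) (co a l n p) (co b m n p)
  refine le_trans (le_of_eq ?_) h
  congr 1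
  refine Finset.sum_congr rfl fun i _ => ?_
  unfold co
  split_ifs <;> ring

theorem lim_le {a : ℕ → ℝ} {l : ℝ} (h : BV a) (hl : Tendsto a atTop (𝓝 l)) {n : ℕ} {p : ℕ → ℕ}
    (hp : Monotone p) : qs a n p + (a (p n) - l) ^ 2 ≤ V a ^ 2 := by
  have h1 : Tendsto (fun t => qs a n p + (a (p n) - a t) ^ 2) atTop
      (𝓝 (qs a n p + (a (p n) - l) ^ 2)) :=
    tendsto_const_nhds.add ((tendsto_const_nhds.sub hl).pow 2)
  refine le_of_tendsto h1 ?_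
  filter_upwards [eventually_ge_atTop (p n)] with t ht
  have hm : Monotone (fun i : ℕ => if i ≤ n then p i else t) := by
    intro i j hij
    simp only
    split_ifs with h2 h3 h3
    · exact hp hij
    · exact le_trans (hp h2) ht
    · omega
    · exact le_rfl
  have h2 := qs_le h (n := n + 1) hm
  refine le_trans (le_of_eq ?_) h2
  unfold qs
  rw [Finset.sum_range_succ]
  congr 1
  · refine Finset.sum_congr rfl fun i hi => ?_
    rw [Finset.mem_range] at hi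
    simp only
    rw [if_pos (by omega : i + 1 ≤ n), if_pos (by omega : i ≤ n)]
  · simp only
    rw [if_neg (by omega : ¬ n + 1 ≤ n), if_pos le_rfl]
    ring

theorem t : S_QVBAS := by
  refine ⟨Qv_nonneg, ?_, ?_, ?_, ?_, ?_, ?_⟩
  · intro a l h n p hp
    exact F_le l h hp
  · intro a l C hC h
    exact Qv_le hC h
  · intro a b l m ha hb
    rw [Qv_eq]
    refine Real.iSup_le (fun c => ?_) (add_nonneg (Qv_nonneg _ _) (Qv_nonneg _ _))
    exact (tri a b l m c.1 c.2.1).trans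
      (add_le_add (sqrtF_le l ha c.2.2) (sqrtF_le m hb c.2.2))
  · intro a l h
    refine Real.iSup_le (fun c => ?_) (Qv_nonneg _ _)
    refine le_trans (Real.sqrt_le_sqrt ?_) (sqrtF_le l h (n := c.1) c.2.2)
    unfold F
    have : 0 ≤ 2 * (a (c.2.1 c.1) - l) ^ 2 := by positivity
    linarith
  · intro a l h hl
    refine Qv_le (mul_nonneg (by norm_num) (V_nonneg a)) fun n p hp => ?_
    have h1 := lim_le h hl (n := n) hp
    have h2 := qs_nonneg a n p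
    have h3 := sq_nonneg (V a)
    unfold F
    nlinarith
  · rw [Qv_eq]
    have h : (fun c : Ix => Real.sqrt (F (fun _ => 0) 0 c.1 c.2.1)) = fun _ => 0 := by
      funext c
      simp [F, qs]
    rw [h]
    exact ciSup_const

end Pool.Agent.Helper46.NT.QVBAS
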